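import Pool.Agent.J4H10.Pp.Main

/-!
# The formula of Beilinson and Bloch for weighted mirror families over `k(t ^ (1 / d))`,
# in particular for all odd prime powers `d`

We compute the order of the L-functions of the cohomology of odd degree `2 i - 1` for families of
Calabi-Yau varieties of dimension `2 i - 1` over `k(u)`, `k` a finite field, pulled back by
`t = u ^ d`. The order is governed by the subgroup of the residues modulo `d` generated by `p`.
-/

set_option autoImplicit false

namespace Pool.Agent.Results.MP_0b9e0b_ag.BalancedTowers

open Polynomial

section series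

/-- The power series `exp (∑_{m ≥ 1} a_m T ^ m / m)`. -/
noncomputable def expSeries (a : ℕ → ℚ) : PowerSeries ℚ :=
  (PowerSeries.exp ℚ).subst (PowerSeries.mk fun m => a m / m)

/-- The Euler product: its coefficient of index `n` is that of the product of the factors of degree
at most `n`. -/
noncomputable def eulerProduct {ι : Type} (deg : ι → ℕ) (f : ι → PowerSeries ℚ) :
    PowerSeries ℚ :=
  PowerSeries.mk fun n => PowerSeries.coeff n (∏ᶠ (i : ι) (_ : deg i ≤ n), f i)

end series

variable {k : Type} [Field k] {ι : Type} [Fintype ι]

/-- The points with coordinate in the extension of degree `m` of `k` of the affine line, that is the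
fixed points of the Frobenius of this extension in the algebraic closure of `k`. -/
def points (k : Type) [Field k] (m : ℕ) : Set (AlgebraicClosure k) :=
  {x | x ^ Nat.card k ^ m = x}

/-- The product over the blocks `j` of
`x_{j,1} ^ a_{j,1} ⋯ x_{j,r_j} ^ a_{j,r_j} (1 - x_{j,1} - ⋯ - x_{j,r_j}) ^ a_{j,0}`. -/
noncomputable def phi (r : ι → ℕ) (a : ∀ j, Fin (r j + 1) → ℕ)
    (x : ∀ j, Fin (r j) → AlgebraicClosure k) : AlgebraicClosure k :=
  ∏ j, ((∏ l : Fin (r j), x j l ^ a j l.succ) * (1 - ∑ l, x j l) ^ a j 0)

/-- The number of the points of the affine hypersurface `phi = t` with coordinates in the extension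
of degree `m` of `k`. -/
noncomputable def pointCount (r : ι → ℕ) (a : ∀ j, Fin (r j + 1) → ℕ) (m : ℕ)
    (t : AlgebraicClosure k) : ℕ :=
  Nat.card {x : ∀ j, Fin (r j) → AlgebraicClosure k //
    (∀ j l, x j l ∈ points k m) ∧ phi r a x = t}

/-- The constant `(∏_j n_j - 1) / (Q - 1)`, where `n_j = ((Q - 1) ^ (r_j + 1) + (-1) ^ r_j) / Q` is
the number of the points over a field with `Q` elements of the complement of the hyperplanes
`x_1 = 0`, ..., `x_r = 0`, `x_1 + ... + x_r = 1` in the affine space of dimension `r = r_j`. -/
noncomputable def constPart (r : ι → ℕ) (Q : ℚ) : ℚ :=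
  (∏ j, (((Q - 1) ^ (r j + 1) + (-1) ^ r j) / Q) - 1) / (Q - 1)

/-- The constant part of the number of the points, minus the number of the points of `phi = t`. -/
noncomputable def trace (r : ι → ℕ) (a : ∀ j, Fin (r j + 1) → ℕ) (m : ℕ)
    (t : AlgebraicClosure k) : ℚ :=
  constPart r ((Nat.card k : ℚ) ^ m) - pointCount r a m t

/-- The places of `k(u)` different from `u = 0` and `u = ∞`: the monic irreducible polynomials
different from `X`. -/
abbrev Place (k : Type) [Field k] : Type := {P : k[X] // P.Monic ∧ Irreducible P ∧ P ≠ X}

/-- The Euler factor at the place `P`, `exp (∑_n trace (Frob_P ^ n) T ^ (n deg P) / n)`: the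
coefficient of `T ^ m / m` in the exponent, `m = n deg P`, is the sum of the traces at `t = θ ^ d`,
where `u = θ` runs through the roots of `P`. -/
noncomputable def eulerFactor (r : ι → ℕ) (a : ∀ j, Fin (r j + 1) → ℕ) (d : ℕ) (P : k[X]) :
    PowerSeries ℚ :=
  expSeries fun m => if P.natDegree ∣ m then
    ∑ᶠ (θ : AlgebraicClosure k) (_ : aeval θ P = 0), trace r a m (θ ^ d) else 0

variable (k) in
/-- The L-function in the variable `T = q ^ (-s)`: the product of the Euler factors over all places
of `k(u)`. The factor at `u = 0` is `(1 - T)⁻¹` and that at `u = ∞` is `1`. -/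
noncomputable def Lfun (r : ι → ℕ) (a : ∀ j, Fin (r j + 1) → ℕ) (d : ℕ) : PowerSeries ℚ :=
  (1 - PowerSeries.X)⁻¹ * eulerProduct (fun P : Place k => P.1.natDegree)
    (fun P => eulerFactor r a d P.1)

/-- The multiset of the numbers `a_{j,l}` and `- (a_{j,0} + ... + a_{j,r_j})`. -/
def entries (r : ι → ℕ) (a : ∀ j, Fin (r j + 1) → ℕ) : Multiset ℤ :=
  ∑ j, ((Finset.univ : Finset (Fin (r j + 1))).val.map (fun l => (a j l : ℤ)) +
    {-(∑ l, (a j l : ℤ))})

open scoped Classical in
/-- The multiset `S` of integers is balanced modulo `e` if for each residue `u` as many of its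
members are congruent to a number `p ^ n u` as to a number `- p ^ n u`. If `- 1` is congruent to a
power of `p`, every multiset is balanced. -/
def Balanced (p e : ℕ) (S : Multiset ℤ) : Prop :=
  ∀ u : ZMod e, (S.filter fun s : ℤ => ∃ n : ℕ, (s : ZMod e) = (p : ZMod e) ^ n * u).card =
    (S.filter fun s : ℤ => ∃ n : ℕ, (s : ZMod e) = -((p : ZMod e) ^ n * u)).card

/-- **The order of the L-functions and the formula of Beilinson and Bloch for towers of weighted
mirror families.**

Let `k` be a finite field with `q` elements, of characteristic `p`. Let `r_j ≥ 1` be integers, `j` in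
a finite set, with sum `2 i`, let `a_{j,0}, ..., a_{j,r_j} ≥ 1` and let `s_j` be their sum over `l`.
On the product of the projective spaces with coordinates `y_{j,0}, ..., y_{j,r_j}` consider, with
`z_j = y_{j,0} + ... + y_{j,r_j}`, the pencil `∏_j ∏_l y_{j,l} ^ a_{j,l} = t ∏_j z_j ^ s_j`. Outside
of the hyperplanes `y_{j,l} = 0`, `z_j = 0` its members for `t ≠ 0, ∞` are the hypersurfaces
`phi = t`. For one block it is the mirror family of the hypersurfaces of degree `s` in the weighted
projective space with the weights `a_0, ..., a_r`. The divisor of these hyperplanes has normal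
crossings and a projective toroidal modification along it gives a smooth variety `W` over the
`t`-line; if `p` does not divide the `a_{j,l}`, the only singular fibre over `t ≠ 0, ∞` is that
over `t = ∏_j ∏_l a_{j,l} ^ a_{j,l} / s_j ^ s_j`, with one ordinary double point (there is none if
`p` divides one of the `s_j`).

Let `d` be odd, prime to `p`, to the `a_{j,l}` and to the `s_j`, and let `X_d` over `k(u)` be the
pullback of the generic member by `t = u ^ d`; it has dimension `2 i - 1`. The strata of its
boundary are the coverings `w ^ g = t y ^ b` of products of split tori and complements of general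
hyperplanes, where `g` divides one of the `a_{j,l}`, so that `g` is prime to `d`. So the cohomology
of `X_d` of odd degree consists of the hypergeometric part `V` of `H ^ (2 i - 1)`, which contains a
maximal unipotent block of dimension `2 i` at `u = 0` (Katz), and of twists of constants by Kummer
characters of orders `> 1` of `u`, whose L-functions are `1`. The trace of Frobenius on `V` is
`trace`, up to the Kummer characters, also on the invariants at the places with a node; at `u = 0`
Frobenius is `1` on the line of invariants and at `u = ∞` there are no invariants. So `Lfun k r a d`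
is the L-function of `H ^ (2 i - 1)(X_d)`, and the L-functions of the other cohomology groups of odd
degree are `1`.

Suppose moreover that for each prime number `l` dividing `d` the part of `d` prime to `l` divides a
number `p ^ n + 1`. This holds if `d` is a power of a prime number, without any condition on `p`, and
if `d` itself divides a number `p ^ n + 1`. The theorem says that the L-function is a polynomial of
degree `d - 1` in `T` whose order at `T = q ^ (- i)` is the sum of `φ(e) / f_e` over the divisors
`e > 1` of `d` for which `entries` is balanced, `f_e` being the order of `q` modulo `e`. For a prime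
number `d` the order is `(d - 1) / f_d` or `0`. If all `a_{j,l}` are `1` and `- 1` is not a power of
`p` modulo `e`, then `entries` is not balanced, as it has more members in the class of `1` than
in that of `- 1`.

The total space `phi = u ^ d` is dominated by a product of Fermat varieties of degree `d`, by
`y_{j,l} = c_{j,l} ^ d` (Shioda, Katsura). Its cohomology is that of `phi ≠ 0` and, for each
character `χ ≠ 1` of the group of the `d`-th roots of unity, a line in degree `2 i`, on which
Frobenius acts by a product of Jacobi sums; the strata of the boundary and of the fibres at `0`,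
`∞` have mixed Tate motives since `d` is prime to the `a_{j,l}`, `s_j`. For `χ` of order `e` the line
is a summand, up to a twist, of the tensor product of the lines of the characters `χ ^ s`,
`s ∈ entries`, in the first cohomology groups of the curves `y ^ p - y = x ^ e`. If `entries`
is balanced modulo `e`, it is spanned by the class of an algebraic cycle, namely a product of
divisors on products of two such curves, the graphs of powers of the Frobenius of these curves; by
the theorem, if `entries` is not balanced modulo `e`, no Tate class exists there over any finite
extension of `k`. So Tate's conjecture holds for the total space in all codimensions, and as its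
motive is in the tensor category generated by those of curves, rational and homological equivalence
agree on it (Soulé, Kimura, Kahn). By the argument of Jannsen, `dim CH ^ i (X_d)_0` is the order of
the theorem, and the formula of Beilinson and Bloch holds for `X_d` in all codimensions. If for
instance all `a_{j,l}` are `1` and `l` is an odd prime number not dividing `p` and the `r_j + 1`,
`CH ^ i (X)_0` vanishes over all the fields `k(t ^ (1 / l ^ n))`, and even over their union over all
finite extensions of `k`, if `- 1` is not a power of `p` modulo `l`, and its dimension over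
`k(t ^ (1 / l ^ n))` is `∑_{m ≤ n} φ(l ^ m) / f_{l ^ m}` if it is. -/
theorem result (k : Type) [Field k] [Finite k] (p : ℕ) [Fact p.Prime] [CharP k p]
    {ι : Type} [Fintype ι] (r : ι → ℕ) (a : ∀ j, Fin (r j + 1) → ℕ) (i : ℕ)
    (hi : ∑ j, r j = 2 * i) (ha : ∀ j l, 0 < a j l) (d : ℕ) (hd : Odd d)
    (hpd : Nat.Coprime p d) (h1 : ∀ j l, Nat.Coprime d (a j l))
    (h2 : ∀ j, Nat.Coprime d (∑ l, a j l))
    (hC : ∀ l : ℕ, l.Prime → l ∣ d → ∃ n, d / l ^ d.factorization l ∣ p ^ n + 1) :
    ∃ F : ℚ[X], Lfun k r a d = (F : PowerSeries ℚ) ∧ F.natDegree = d - 1 ∧
      F.rootMultiplicity ((Nat.card k : ℚ) ^ i)⁻¹ =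
        ∑ e ∈ d.divisors.erase 1, (open scoped Classical in
          if Balanced p e (entries r a) then
            Nat.totient e / orderOf ((Nat.card k : ℕ) : ZMod e) else 0) :=
  Pool.Agent.J4H10.Pp.main k p r a i hi ha d hd hpd h1 h2 hC

end Pool.Agent.Results.MP_0b9e0b_ag.BalancedTowers
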