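import Mathlib
import Pool.Agent.J4H9.BF.MainTop
import Pool.Agent.J4H57.BF.Jor
import Pool.Agent.J4H72.BF.Tri
import Pool.Agent.J4H97.BF.N3
import Pool.Agent.J4H94.BF.Dcn
import Pool.Agent.J4H19.BF.K3
import Pool.Agent.J4H54.BF.Avg
import Pool.Agent.J4H2.BF.Top
import Pool.Agent.J4H10.BF.Formf

/-!
# The formula of Beilinson and Bloch over a fixed finite field, in the Newton strata

Let `q = p ^ a` be a power of a prime number. The Weil polynomials of degree `2 g` over the field
with `q` elements are the polynomials with integral coefficients, leading coefficient one and
constant term `q ^ g`, all of whose roots have absolute value `√q`. Let `ν` be a symmetric Newton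
polygon with the first `g` slopes `lam 0 ≤ lam 1 ≤ ⋯ ≤ lam (g - 1)`, `0 ≤ lam i ≤ 1 / 2`. The set
`newtonAbove p a lam g` consists of the Weil polynomials whose Newton polygon is not below `ν`, and
the set `newtonThrough p a lam g E` of those members whose Newton polygon meets `ν` over all points
of the finite set `E`. If `E` contains the vertices of `ν` this is the set of all Weil polynomials
with the Newton polygon `ν`.

Assume that the height of `ν` over `g` is at most `(1 / 2 - μ) g`. Let `S` be a subset of
`newtonAbove p a lam g` with at least `1 / D` times as many elements as `newtonThrough p a lam g E`,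
such that for all members of `S` the sum of the three smallest slopes is less than one (`Three`).
For example `S = newtonThrough p a lam g E`, if `E` contains `g` and the vertices of `ν`, and
`lam 0 + lam 1 + lam 2 < 1`. Then the number of the tuples `(f 1, …, f m)` of elements of `S` such
that the statement `BeilinsonBlochFormula q (f 1, …, f m)` is not true is at most
`m ^ 2 D 2 ^ #E 8 ^ g q ^ (- (μ / 4 - ε) g)` times the number of all tuples. The bound is uniform in
`q`, in the Newton polygon and in the dimension `g`: if `q > 8 ^ (4 / μ)` is fixed and the dimension
tends to infinity, then the proportion of the exceptional tuples tends to zero exponentially, in all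
Newton strata with `lam 0 + lam 1 + lam 2 < 1` and height at most `(1 / 2 - μ) g` (with `8 ^ g`
replaced by `16 ^ g`). The case of the slopes zero is the case of the ordinary abelian varieties.

`BeilinsonBlochFormula q (f 1, …, f m)` is the following statement (compare the file
`AlmostAllAbelianVarieties`, where it is proved for almost all families in the case that `g` is
fixed and `q` tends to infinity). Let `A` be a product of powers of abelian varieties with the
characteristic polynomials of Frobenius `f i` over the field with `q` elements, and let `k` be
**any** global function field which contains the field with `q` elements, that is, the function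
field of a smooth projective geometrically connected curve `C` over the field with `q ^ s` elements,
`s > 0`. Then the order of vanishing of `L (H ^ (2 i - 1) (A_k), s)` at `s = i` is equal to the
dimension of the space `algebraicClasses` of the classes in `H ^ (2 i - 1) (A) ⊗ H ^ 1 (C)` which are
linear combinations of products of `i - 1` classes of divisors on `A` and a correspondence between
`A` and `C`, for all `i = k + 1 ≥ 1`. By theorems of Tate and Kahn this dimension is the rank of
`CH ^ i (A_k)_0`: the formula of Beilinson and Bloch holds.

The idea of the proof: outside of the exceptional set the polynomials and the pairs of them have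
certain factorisation patterns modulo prime numbers (a sieve in the Newton strata). So the Galois
group contains for each `f i` an element which permutes more than half of the pairs of roots
`z, q / z` cyclically and fixes all the other roots of all the `f j`. The theorem of Jordan and
commutators give elements which permute three pairs of roots of `f i` cyclically, and then elements
which exchange `z` and `q / z` for two pairs of roots of `f i` and fix all the other roots (if there
were none, the product of one root of each pair would be a quadratic number, a relation which is
excluded). So three roots can be moved to the three roots with the smallest slopes, and the mean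
over the double flips shows that in a product of roots, no two with product `q`, and of an integral
number of weight one, which is a power of `q` up to a root of unity, there is at most one root.
The condition on the three smallest slopes is the natural one: if their sum is at least one, the
number `q ^ 2 / (z z' z'')` is integral for all roots `z, z', z''` in different pairs, so it occurs
in the cohomology of a curve.
-/

set_option autoImplicit false

namespace Pool.Agent.Results.MP_0b9e0b_ag.NewtonStrata

open Polynomial Pool.Agent.W484.AA Pool.Agent.J4H9.NGauss Pool.Agent.J4H9.NStm Pool.Agent.J4H9.BF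

theorem result {μ ε : ℝ} (hμ : 0 < μ) (hμ1 : μ ≤ 1 / 2) (hε : 0 < ε) (hε1 : ε < μ / 4) :
    ∃ g₀ : ℕ, ∀ g : ℕ, g₀ ≤ g → ∀ p a : ℕ, p.Prime → 0 < a → ∀ lam : ℕ → ℝ, Slopes lam →
      ∑ i ∈ Finset.range g, lam i ≤ (1 / 2 - μ) * g →
      ∀ E : Finset ℕ, (∀ j ∈ E, 0 < j ∧ j ≤ g ∧
        ∃ n : ℕ, (a : ℝ) * ∑ i ∈ Finset.range j, lam i = n) →
      ((newtonAbove p a lam g).Finite ∧
        (64 ≤ ((p ^ a : ℕ) : ℝ) ^ (μ / 2) → 0 < (newtonThrough p a lam g E).ncard) ∧
        ((∀ j, 0 < j → j < g → lam (j - 1) < lam j → j ∈ E) → g ∈ E →
          lam 0 + lam 1 + lam 2 < 1 → ∀ f ∈ newtonThrough p a lam g E, Three p a g f)) ∧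
      ∀ (S : Set ℤ[X]) (D : ℝ), S ⊆ newtonAbove p a lam g → (∀ f ∈ S, Three p a g f) → 1 ≤ D →
        ((newtonThrough p a lam g E).ncard : ℝ) ≤ D * S.ncard → ∀ m : ℕ,
        ({f : Fin m → ℤ[X] | (∀ i, f i ∈ S) ∧ ¬ BeilinsonBlochFormula (p ^ a) f}.ncard : ℝ) ≤
          (m : ℝ) ^ 2 * D * 2 ^ E.card * 8 ^ g *
            ((p ^ a : ℕ) : ℝ) ^ (-((μ / 4 - ε) * g)) * (S.ncard : ℝ) ^ m :=
  main_top Pool.Agent.J4H57.BF.t_JOR Pool.Agent.J4H72.BF.t_TRI Pool.Agent.J4H97.BF.t_N3
    Pool.Agent.J4H97.BF.t_CMT Pool.Agent.J4H94.BF.t_DCN Pool.Agent.J4H19.BF.t_K3
    Pool.Agent.J4H54.BF.t_AVG Pool.Agent.J4H2.BF.t_TOP Pool.Agent.J4H10.BF.t_FORMF hμ hμ1 hε hε1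

end Pool.Agent.Results.MP_0b9e0b_ag.NewtonStrata
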