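import Pool.Agent.J4H10.Rd.Main

/-!
# No zero at `s = i`, in all codimensions at once, for 41.94 % of all quadratic twists

Let `k` be a finite field with `q` elements, `4 ∣ q - 1`, and `K = k(t)`. Let `Y` be any smooth
projective variety over `k` with an involution `σ`; for instance an abelian variety with `σ = - 1`.
For a squarefree monic `D` in `k[t]` of odd degree let `Y_D` over `K` be the quadratic twist of `Y`
by `K(√D)` and `σ`. Any quadratic extension of `k(t)` ramified at a rational place is, after a change
of variable, given by such a `D`.
-/

set_option autoImplicit false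

namespace Pool.Agent.Results.MP_0b9e0b_ag.PositiveProportionOfTwists

open Polynomial

section defs

/-- The Euler product: its coefficient of index `n` is that of the product of the factors of degree
at most `n`. -/
noncomputable def eulerProduct {I : Type} (deg : I → ℕ) (f : I → PowerSeries ℂ) :
    PowerSeries ℂ :=
  PowerSeries.mk fun n => PowerSeries.coeff n (∏ᶠ (j : I) (_ : deg j ≤ n), f j)

variable {k : Type} [Field k] {ι : Type} [Fintype ι]

/-- The power residue symbol of `D` at the monic irreducible polynomial `P`: the value of the
character `χ` of `k` at the norm to `k` of the residue of `D` in `k[t] / (P)`. It is zero if `P`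
divides `D`. For the quadratic character of `k` it is the quadratic residue symbol. -/
noncomputable def symbol (χ : MulChar k ℂ) (D P : k[X]) : ℂ :=
  χ (Algebra.norm k (AdjoinRoot.mk P D))

/-- The Euler factor at `P`. -/
noncomputable def localFactor (χ : ι → MulChar k ℂ) (β : ι → ℂ) (D P : k[X]) : PowerSeries ℂ :=
  (∏ x, (1 - PowerSeries.C (symbol (χ x) D P) *
    (PowerSeries.C (β x) * PowerSeries.X) ^ P.natDegree))⁻¹

open Classical in
/-- The Euler factor at infinity. -/
noncomputable def infFactor (χ : ι → MulChar k ℂ) (β : ι → ℂ) (D : k[X]) : PowerSeries ℂ :=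
  (∏ x, if χ x ^ D.natDegree = 1 then
    (1 - PowerSeries.C (χ x D.leadingCoeff * β x) * PowerSeries.X) else 1)⁻¹

/-- The L-function in the variable `T = q ^ (-s)`: the product of the Euler factors over all places
of `k(t)`. -/
noncomputable def Lfun (χ : ι → MulChar k ℂ) (β : ι → ℂ) (D : k[X]) : PowerSeries ℂ :=
  eulerProduct (fun P : {P : k[X] // P.Monic ∧ Irreducible P} => P.1.natDegree)
    (fun P => localFactor χ β D P.1) * infFactor χ β D

end defs

/-- **At least 41.94 percent of all quadratic twists have no zero at `s = i`, for all `i`.**

Let `Y` and `σ` be as above, `i ≥ 1`, and let `V` be the cohomology of degree `2 i - 1` of `Y`, or of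
`Y_D`, over the algebraic closure. Let `x` run through the common eigenvectors (of the
semisimplifications) of the Frobenius of `k` and of `σ` in `V` on which `σ` is `- 1`; `β x` is the
eigenvalue of the Frobenius and `χ x` the quadratic character of `k`. For `P` not dividing `D` the
eigenvalues at `P` are `symbol (χ x) D P` times the power `deg P` of `β x`; infinity is ramified as
the degree of `D` is odd. So `Lfun χ β D` is the L-function of the part of `V` where `σ = - 1`. The
part where `σ = 1` is constant and its L-function has no zero or pole at `s = i`. Therefore the order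
of vanishing of `L(H ^ (2 i - 1)(Y_D), s)` at `s = i`, which should be the rank of `CH ^ i (Y_D)_0`,
is the multiplicity of `q ^ (-i)` as a zero of the polynomial `G` below.

The first part says: for each large odd `n` there is one set `T` of at least 41.94 percent of all
squarefree monic `D` of degree `n` such that for all `D` in `T`, for all `Y` and for all `i` at once,
`L(H ^ (2 i - 1)(Y_D), s)` does not vanish at `s = i`, provided that the eigenvalues `β x` are
congruent to `1` modulo `4` at a place above `2`, that is, `1 / 2` is not in the ring generated by
`(β x - 1) / 4`. The constant `0.4194` is the product of the `1 - 2 ^ (1 - 2 j)`, `j ≥ 1`, rounded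
down, the probability that a large symmetric matrix over the field with two elements is nonsingular.

The second part says that the condition on the eigenvalues holds after a finite extension of the
field of constants which depends only on the Betti numbers: if `Y` is defined over a finite field
`k₀` of odd characteristic with `q₀` elements, if the Betti number of `Y` in degree `2 i - 1` is at
most `b`, `b ≥ 1`, and if `k` is the extension of `k₀` of degree `m`, a multiple of
`2 ^ (b + 1) ∏_{j ≤ b} (2 ^ j - 1)`, then `β x` is the power `m` of an eigenvalue `γ` of the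
Frobenius of `k₀`, a root of a monic integral polynomial of degree at most `b`, with
`|γ| ^ 2 = q₀ ^ (2 i - 1)` by Deligne; and `4 ∣ q - 1`.

If the motive of `Y` is of abelian type, then for all `D` in `T` and all `i` the group
`CH ^ i (Y_D) ⊗ ℚ` is `CH ^ i (Y) ^ σ ⊗ ℚ` (Kimura, Soulé), so that the formula of Beilinson and
Bloch for `Y_D` is equivalent to the equality of rational and homological equivalence on
`CH ^ i (Y) ^ σ`; by Kahn this is true if the Tate classes of `Y` are algebraic.

Idea of the proof: for `u` congruent to `1` modulo `4` the value at `u` of the L-polynomial of the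
quadratic character of `D`, a product of `r` primes, is `2 ^ (r - 1)` times a number which is
congruent modulo `2` to `deg D` times a cofactor of the Laplacian matrix over the field with two
elements of the graph of the nonresidue symbols of the prime factors of `D` (a Rédei matrix). The
mean size of the kernels is computed with the Riemann hypothesis for curves, and adding large primes
one after the other gives a Markov chain on the coranks. -/
theorem result (k : Type) [Field k] [Finite k] (hk : Nat.card k % 4 = 1) :
    (∃ n₀ : ℕ, ∀ n : ℕ, n₀ ≤ n → Odd n → ∃ T : Set k[X],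
      T ⊆ {D : k[X] | D.Monic ∧ D.natDegree = n ∧ Squarefree D} ∧
      0.4194 * ({D : k[X] | D.Monic ∧ D.natDegree = n ∧ Squarefree D}.ncard : ℝ) ≤
        (T.ncard : ℝ) ∧
      ∀ D ∈ T, ∀ (ι : Type) [Fintype ι] (χ : ι → MulChar k ℂ) (β : ι → ℂ),
        (∀ x, χ x ≠ 1 ∧ χ x ^ 2 = 1 ∧ (2 : ℂ)⁻¹ ∉ Subring.closure {(β x - 1) / 4}) →
        ∃ G : ℂ[X], Lfun χ β D = (G : PowerSeries ℂ) ∧
          ∀ i : ℕ, G.eval ((Nat.card k : ℂ) ^ i)⁻¹ ≠ 0) ∧
    (∀ (b m N : ℕ) (f : ℤ[X]) (γ : ℂ), f.Monic → f.natDegree ≤ b → aeval γ f = 0 →
      ‖γ‖ ^ 2 = (N : ℝ) → Odd N → 2 ^ (b + 1) * ∏ j ∈ Finset.Icc 1 b, (2 ^ j - 1) ∣ m →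
        (2 : ℂ)⁻¹ ∉ Subring.closure {(γ ^ m - 1) / 4}) :=
  Pool.Agent.J4H10.Rd.main hk

end Pool.Agent.Results.MP_0b9e0b_ag.PositiveProportionOfTwists
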