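import Pool.Agent.J4H10.TG.Main

/-!
# Non-vanishing at `s = i`, in all codimensions, for twists of all varieties with an automorphism over
# a finite field

Let `k` be a finite field with `q` elements, `K = k(t)`. Let `Y` be any smooth projective variety over
`k` with an automorphism `σ` over `k` whose order `m` is a power of a prime `ℓ` and divides `q - 1`;
for instance any `Y` with an involution, `q` odd, or an abelian variety with `σ = - 1`. For `D` in
`k[t]` let `Y_D` over `K` be the twist of `Y` by the Kummer extension `K(D ^ (1 / m))` and `σ`; for an
abelian variety and `σ = - 1` it is the quadratic twist by `D`.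
-/

set_option autoImplicit false

namespace Pool.Agent.Results.MP_0b9e0b_ag.TwistsOfAllVarieties

open Polynomial

section defs

/-- The Euler product: its coefficient of index `n` is that of the product of the factors of degree
at most `n`. -/
noncomputable def eulerProduct {I : Type} (deg : I → ℕ) (f : I → PowerSeries ℂ) :
    PowerSeries ℂ :=
  PowerSeries.mk fun n => PowerSeries.coeff n (∏ᶠ (j : I) (_ : deg j ≤ n), f j)

variable {k : Type} [Field k] {ι : Type} [Fintype ι]

/-- The power residue symbol of `D` at the monic irreducible polynomial `P`: the value of the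
character `χ` of `k` at the norm to `k` of the residue of `D` in `k[t] / (P)`. It is zero if `P`
divides `D`. If `χ` has order `m` it is, for an identification of the `m`-th roots of unity of `k` with
those of `ℂ`, the power `(q ^ (deg P) - 1) / m` of `D` modulo `P`. -/
noncomputable def symbol (χ : MulChar k ℂ) (D P : k[X]) : ℂ :=
  χ (Algebra.norm k (AdjoinRoot.mk P D))

/-- The Euler factor at `P`. -/
noncomputable def localFactor (χ : ι → MulChar k ℂ) (β : ι → ℂ) (D P : k[X]) : PowerSeries ℂ :=
  (∏ x, (1 - PowerSeries.C (symbol (χ x) D P) *
    (PowerSeries.C (β x) * PowerSeries.X) ^ P.natDegree))⁻¹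

open Classical in
/-- The Euler factor at infinity. -/
noncomputable def infFactor (χ : ι → MulChar k ℂ) (β : ι → ℂ) (D : k[X]) : PowerSeries ℂ :=
  (∏ x, if χ x ^ D.natDegree = 1 then
    (1 - PowerSeries.C (χ x D.leadingCoeff * β x) * PowerSeries.X) else 1)⁻¹

/-- The L-function in the variable `T = q ^ (-s)`: the product of the Euler factors over all places
of `k(t)`. -/
noncomputable def Lfun (χ : ι → MulChar k ℂ) (β : ι → ℂ) (D : k[X]) : PowerSeries ℂ :=
  eulerProduct (fun P : {P : k[X] // P.Monic ∧ Irreducible P} => P.1.natDegree)
    (fun P => localFactor χ β D P.1) * infFactor χ β D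

/-- The sum of the `ℓ`-parts of the degrees of the prime factors `P` of `D` with `y ^ deg P = 1`. -/
noncomputable def fixedPrimes {κ : Type} [Field κ] (ℓ : ℕ) (D : k[X]) (y : κ) : ℕ :=
  ∑ᶠ (P : k[X]) (_ : P.Monic ∧ Irreducible P ∧ P ∣ D ∧ y ^ P.natDegree = 1),
    ℓ ^ padicValNat ℓ P.natDegree

open Classical in
/-- `fixedPrimes`, minus one if `y = 1` and `χ` is ramified at infinity, minus two if `y = 1` and `χ`
is unramified at infinity (zero if the difference is negative). -/
noncomputable def excess {κ : Type} [Field κ] (ℓ : ℕ) (χ : MulChar k ℂ) (D : k[X]) (y : κ) : ℕ :=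
  fixedPrimes ℓ D y - if y = 1 then (if χ ^ D.natDegree = 1 then 2 else 1) else 0

end defs

open Classical in
/-- **Non-vanishing at `s = i` for the twists of all varieties by primes.**

Let `Y`, `σ`, `m`, `ℓ` be as above, `i ≥ 1`, `w = 2 i - 1`, and let `V` be the cohomology of degree
`2 i - 1` of `Y`, or of `Y_D`, over the algebraic closure. Let `x` run through the common eigenvectors
(of the semisimplifications) of the Frobenius of `k` and of `σ` in `V` on which `σ` is not the
identity; `β x` is the eigenvalue of the Frobenius and `χ x` the character of `k`, of order a divisor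
of `m` and not one, which corresponds to the eigenvalue of `σ`. By Deligne the `β x` are roots of the
characteristic polynomial of the Frobenius, which is in `ℤ[X]` and has degree `b`, the Betti number,
and their absolute value is the square root of `q ^ w`. Let `D` be squarefree, not constant.
The eigenvalues at `P`, not dividing `D`, are `symbol (χ x) D P` times the power `deg P` of `β x`; the
inertia group acts at the `P` which divide `D` by the powers of `σ`, and at infinity by those of
`σ ^ (deg D)`. So `Lfun χ β D` is the L-function of the part of `V` where `σ ≠ 1`. The part where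
`σ = 1` is constant; its L-function is the product of the `((1 - γ T)(1 - q γ T))⁻¹` with `γ` of
absolute value `q ^ (i - 1 / 2)`, and has no zero or pole at `s = i`.

The theorem, first part: for all squarefree `D` the order of vanishing of the L-function of
`H ^ (2 i - 1)(Y_D)` at `s = i` is at most the sum over the `x` of the numbers
`excess ℓ (χ x) D (φ x (β x))`, for any homomorphisms `φ x` from the algebraic integers to a field of
characteristic `ℓ`. (If the degrees of the `P` are prime to `ℓ` the excess is the number of the `P`
dividing `D` with `β x ^ deg P = 1` modulo a prime above `ℓ`, minus one or two if `β x = 1` modulo this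
prime.) Second part: let `N` be the product of the `ℓ ^ j - 1`, `1 ≤ j ≤ b`, and let the degrees of
the prime factors of `D` be prime to `N`. If the sum of the `ℓ`-parts of these degrees is at most
two for the `x` which are unramified at infinity, and one for the others, then the L-function does
not vanish at `s = i`. This is the case if

* `D` is irreducible of degree prime to `ℓ`; or
* `σ` is an involution and `D` is irreducible of degree not divisible by four; or
* `σ` is an involution and `D` has two prime factors, both of odd degree; or, for all `ℓ`, `D` has two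
  prime factors of degrees prime to `ℓ` whose sum is divisible by `m`.

So if `b` is at least all the odd Betti numbers this holds for all `i` and all these `D`, in particular
for every abelian variety `A` over a finite field of odd characteristic and the quadratic twists
`A_D`.

The formula of Beilinson and Bloch then predicts that `CH ^ i (Y_D)_0 = 0`. Let `C` be the curve
`w ^ m = D(t)`. If the motive of `Y` is of abelian type (products of curves, abelian varieties, Fermat
varieties), then by the theorem, the theorem of Kimura and the argument of Soulé the Chow group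
`CH ^ i` of the part `(h(Y) ⊗ h ^ 1(C)) ^ (μ_m)` is zero, since `q ^ i` is not an eigenvalue of the
Frobenius, so that `CH ^ i (Y_D) = CH ^ i (Y) ^ σ`: the formula holds for `Y_D` in codimension `i` if
and only if rational and homological equivalence agree on `CH ^ i (Y) ^ σ`. By Kahn this is true if all
Tate classes of `Y` are algebraic, for example for products of elliptic curves and for abelian
varieties of dimension at most three; so the conjecture is true for their twists `Y_D` in all
codimensions. -/
theorem result (k : Type) [Field k] [Finite k] (ℓ : ℕ) [Fact ℓ.Prime] {ι : Type} [Fintype ι]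
    (χ : ι → MulChar k ℂ) (hχ : ∀ x, χ x ≠ 1 ∧ ∃ a, χ x ^ ℓ ^ a = 1)
    (β : ι → integralClosure ℤ ℂ) (hβ : ∀ x, β x ≠ 0)
    (D : k[X]) (hD : Squarefree D) (hdeg : 0 < D.natDegree) :
    ∃ G : ℂ[X], Lfun χ (fun x => (β x : ℂ)) D = (G : PowerSeries ℂ) ∧ G ≠ 0 ∧
      (∀ (κ : Type) [Field κ] [CharP κ ℓ] (φ : ι → integralClosure ℤ ℂ →+* κ) (i : ℕ),
        G.rootMultiplicity ((Nat.card k : ℂ) ^ i)⁻¹ ≤ ∑ x, excess ℓ (χ x) D (φ x (β x))) ∧
      ∀ w b : ℕ, (∀ x, ‖(β x : ℂ)‖ ^ 2 = (Nat.card k : ℝ) ^ w ∧
          ∃ f : ℤ[X], f.Monic ∧ f.natDegree ≤ b ∧ aeval (β x : ℂ) f = 0) →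
        (∀ P : k[X], Irreducible P → P ∣ D →
          Nat.Coprime P.natDegree (∏ j ∈ Finset.Icc 1 b, (ℓ ^ j - 1))) →
        (∀ x, (∑ᶠ (P : k[X]) (_ : P.Monic ∧ Irreducible P ∧ P ∣ D),
          ℓ ^ padicValNat ℓ P.natDegree) ≤ if χ x ^ D.natDegree = 1 then 2 else 1) →
        ∀ i : ℕ, G.eval ((Nat.card k : ℂ) ^ i)⁻¹ ≠ 0 :=
  Pool.Agent.J4H10.TG.mainG ℓ χ hχ β hβ D hD hdeg

end Pool.Agent.Results.MP_0b9e0b_ag.TwistsOfAllVarieties
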